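import Pool.Agent.Lib.MP_b5021c_nt.IfaceE6
import Pool.Agent.Lib.MP_b5021c_nt.E.H56.T2o
import Pool.Agent.Lib.MP_b5021c_nt.E.H78.Zfa
import Pool.Agent.Lib.MP_b5021c_nt.H41.Rks

/-!
# MP_b5021c_nt, row E6_WN2 (helper66): the window, second closing
-/

namespace Pool.Agent.B5.H66

open scoped LaurentPolynomial
open Polynomial

/-- Division by an element of class `V(1)`, in normal form. -/
theorem div_nf {p r : ℤ[X]} {k m : ℤ} {c x : RO ℤ} (hp : p.coeff 0 ≠ 0)
    (hc : c = LaurentPolynomial.T k * toLaurent p)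
    (h : c * x = LaurentPolynomial.T m * toLaurent r) :
    ∃ x' : ℤ[X], x = LaurentPolynomial.T (m - k) * toLaurent x' ∧ p * x' = r := by
  obtain ⟨j, b, hb⟩ := LaurentPolynomial.exists_T_pow (x * LaurentPolynomial.T (k - m))
  have hTT : ∀ a : ℤ, (LaurentPolynomial.T (-a) * LaurentPolynomial.T a : RO ℤ) = 1 := by
    intro a
    rw [← LaurentPolynomial.T_add]
    simp
  have e0 : (toLaurent p * x : RO ℤ) = LaurentPolynomial.T (m - k) * toLaurent r := by
    have h2 : (toLaurent p * x : RO ℤ) = LaurentPolynomial.T (-k) * (c * x) := by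
      rw [hc]
      linear_combination (-(toLaurent p * x : RO ℤ)) * hTT k
    rw [h2, h, ← mul_assoc, ← LaurentPolynomial.T_add, neg_add_eq_sub]
  have h1 : toLaurent (p * b) = toLaurent (X ^ j * r) := by
    rw [map_mul, map_mul, hb, toLaurent_X_pow]
    have h2 : (LaurentPolynomial.T (m - k) * LaurentPolynomial.T (k - m) : RO ℤ) = 1 := by
      rw [← LaurentPolynomial.T_add]
      simp
    linear_combination (LaurentPolynomial.T (k - m) * LaurentPolynomial.T j : RO ℤ) * e0 +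
      (LaurentPolynomial.T j * toLaurent r : RO ℤ) * h2
  have h2 : p * b = X ^ j * r := toLaurent_injective h1
  have h3 : X ^ j ∣ b := by
    refine prime_X.pow_dvd_of_dvd_mul_left j ?_ (Dvd.intro r h2.symm)
    intro h4
    exact hp (X_dvd_iff.1 h4)
  obtain ⟨x', hx'⟩ := h3
  refine ⟨x', ?_, ?_⟩
  · rw [hx', map_mul, toLaurent_X_pow] at hb
    have h4 : (LaurentPolynomial.T (m - k) * LaurentPolynomial.T (k - m) : RO ℤ) = 1 := by
      rw [← LaurentPolynomial.T_add]
      simp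
    have h5 : (toLaurent x' : RO ℤ) = x * LaurentPolynomial.T (k - m) := by
      refine (LaurentPolynomial.isUnit_T (R := ℤ) j).mul_left_cancel ?_
      rw [hb]
      ring
    rw [h5]
    linear_combination (-x) * h4
  · rw [hx'] at h2
    have h4 : (X : ℤ[X]) ^ j ≠ 0 := pow_ne_zero _ X_ne_zero
    apply mul_left_cancel₀ h4
    rw [← h2]
    ring

/-- An element `x` with `c x = T^m r` is of class `V`. -/
theorem classV_of {N : ℝ} {x : RO ℤ} {a : ℤ} {x' : ℤ[X]} (hN : 1 ≤ N)
    (hx : x = LaurentPolynomial.T a * toLaurent x') (h0 : |(x'.coeff 0 : ℝ)| = N)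
    (hz : ∀ z : ℂ, ‖z‖ < 1 → (x'.map (Int.castRingHom ℂ)).eval z ≠ 0) : ClassV N x := by
  refine ⟨hN, a, x', hx, ?_, hz⟩
  rw [← h0]
  change ‖((x'.coeff 0 : ℤ) : ℂ)‖ = _
  rw [Complex.norm_intCast]

theorem abs_of_mul {p x r : ℤ[X]} (hp : p.coeff 0 = 1 ∨ p.coeff 0 = -1) (h : p * x = r) :
    |(x.coeff 0 : ℝ)| = |(r.coeff 0 : ℝ)| := by
  have h1 : |(p.coeff 0 : ℝ)| = 1 := by
    rcases hp with h | h <;> rw [h] <;> simp
  rw [← h, mul_coeff_zero, Int.cast_mul, abs_mul, h1, one_mul]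

theorem nz_of_mul {p x r : ℤ[X]} (h : p * x = r) {z : ℂ}
    (hz : (r.map (Int.castRingHom ℂ)).eval z ≠ 0) : (x.map (Int.castRingHom ℂ)).eval z ≠ 0 := by
  intro h1
  apply hz
  rw [← h, Polynomial.map_mul, eval_mul, h1, mul_zero]

/-- Row E6_WN2. -/
theorem wn2 : Wn1S → ScvS → FclS → ZfbS → E3vS → McoS → MdcS → Wn2S := by
  intro hWn1 hScv hFcl hZfb hE3v hMco hMdc P L _ _ _ _ _ phi D S0 S1 e0 e1 θ E n q f u sg N eA e1'
    W he1' Y hfull hx
  have dd := W.fp.dd
  have hθ : (10 : ℝ) ^ 13 ≤ θ := W.hyp.big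
  have hθ1 : (1 : ℝ) < θ := lt_of_lt_of_le (by norm_num) hθ
  have hθ0 : (0 : ℝ) < θ := by linarith
  have hinv : 1 / θ ≤ 1 / 1000 := by
    apply one_div_le_one_div_of_le (by norm_num)
    linarith
  have hinv0 : 0 < 1 / θ := by positivity
  by_contra hcon
  push Not at hcon
  obtain ⟨i0, h0, T, eT, i1, k1, hk, h1⟩ := Y
  have hw : (Module.finrank ℤ L : ℝ) ≤ 2 * (θ - 1 / θ) ∨
      (Module.finrank ℤ L ≤ 2 * N ∧ ∃ (c : RO ℤ) (G : AO ℤ (Ker (co phi i0))), ClassV 1 c ∧
        cl (co phi i0) S0 h0 eA D = cst c * G ∧ DD (phO phi S0 i0) G ∧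
        ClassV (N : ℝ) (G.coeff 0) ∧ Ray G T ∧
        c * G.coeff 0 = LaurentPolynomial.T n * toLaurent (q - C (sg : ℤ) * f) ∧
        (e1 : RO ℤ) * (c * G.coeff T) =
          LaurentPolynomial.T n * toLaurent ((X + C (sg : ℤ)) * f) ∧
        ImS (phO phi S0 i0) T ∧ co (phO phi S0 i0) i1 = k1) :=
    hWn1 P L phi D S0 S1 e0 e1 θ E n q f u sg N eA W ⟨i0, h0, T, eT, i1, k1, hk, h1⟩
  rcases hw with h1 | ⟨hK2, c, G, hc, hcl, hG, hGV, hray, hc0, hcT, him, hi1⟩
  · linarith
  subst hi1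
  -- `K = 2 N`
  have hNhi := W.Nhi
  have hNlo := W.Nlo
  have hK : Module.finrank ℤ L = 2 * N := by
    have h1 : (2 * N : ℝ) - 1 < Module.finrank ℤ L := by linarith
    have h2 : ((2 * N : ℕ) : ℝ) < ((Module.finrank ℤ L + 1 : ℕ) : ℝ) := by
      push_cast
      linarith
    have h3 : 2 * N < Module.finrank ℤ L + 1 := by exact_mod_cast h2
    omega
  have hN13 : (9 : ℝ) / 10 * 10 ^ 13 ≤ N := by
    refine le_trans ?_ hNlo
    nlinarith
  have hN1 : 10000 ≤ N := by
    have : (10000 : ℝ) ≤ N := le_trans (by norm_num) hN13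
    exact_mod_cast this
  have hk0 : co phi i0 ≠ 0 := by
    intro h
    have h2 := h0
    rw [h] at h2
    simp at h2
  have hfk : Module.finrank ℤ (Ker (co phi i0)) + 1 = Module.finrank ℤ L :=
    Pool.Agent.B5.H41.rk_ker _ hk0
  have hk1 : co (phO phi S0 i0) i1 ≠ 0 := by
    intro h
    have h2 := h1
    rw [h] at h2
    simp at h2
  have hfk1 : Module.finrank ℤ (Ker (co (phO phi S0 i0) i1)) + 1 =
      Module.finrank ℤ (Ker (co phi i0)) := Pool.Agent.B5.H41.rk_ker _ hk1
  -- signs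
  have hsg2 : (sg : ℤ) * sg = 1 := by
    rcases W.pol.sg2 with h | h <;> rw [h] <;> norm_num
  have hsgC : (LaurentPolynomial.C (sg : ℤ) * LaurentPolynomial.C (sg : ℤ) : RO ℤ) = 1 := by
    rw [← map_mul, hsg2, map_one]
  have hTT : (LaurentPolynomial.T (-1) * LaurentPolynomial.T 1 : RO ℤ) = 1 := by
    rw [← LaurentPolynomial.T_add]
    simp
  have hX : toLaurent (X * f) = (LaurentPolynomial.T 1 * toLaurent f : RO ℤ) := by
    rw [map_mul, toLaurent_X]
  have hqabs : |(q.coeff 0 : ℝ)| = 1 := by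
    rcases W.pol.q0 with h | h <;> rw [h] <;> simp
  have hsabs : |((sg : ℤ) : ℝ)| = 1 := by
    rcases W.pol.sg2 with h | h <;> rw [h] <;> simp
  have hfabs : |(f.coeff 0 : ℝ)| = 1 := by
    rw [W.pol.f0, Int.cast_mul, abs_mul, hsabs, hqabs, mul_one]
  -- the double closing
  have hdc : dc (⟨i0, h0, T, eT, i1, co (phO phi S0 i0) i1, hk, h1⟩ : Dp phi S0 S1) eA e1' D =
      cst c * cl (co (phO phi S0 i0) i1) T h1 e1' G := by
    unfold dc
    dsimp only
    rw [hcl, map_mul, Pool.Agent.B5.H71.cl_cst]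
  rw [hdc] at hfull hx
  have hcne : c ≠ 0 := by
    obtain ⟨-, k, p, hp, hp0, -⟩ := hc
    rintro rfl
    have h2 : toLaurent p = 0 := by
      rcases mul_eq_zero.1 hp.symm with h3 | h3
      · exact absurd h3 (LaurentPolynomial.isUnit_T k).ne_zero
      · exact h3
    rw [toLaurent_injective (h2.trans (map_zero _).symm), coeff_zero, map_zero, norm_zero] at hp0
    exact zero_ne_one hp0
  rw [Pool.Agent.B5.H56.supp_cst_mul hcne] at hfull
  -- the normal form of `c`
  obtain ⟨k, p, hcp, hp1, hp0, hpz⟩ := Pool.Agent.B5.H78.classV_nf hc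
  have hpu : p.coeff 0 = 1 ∨ p.coeff 0 = -1 := by
    have h2 : |p.coeff 0| = 1 := by exact_mod_cast hp1
    exact (abs_eq (by norm_num)).1 h2
  -- the three equations
  have hu0c : u.coeff 0 = -((sg : ℤ) * q.coeff 0 * N) := by
    rw [← W.c1, W.qu, coeff_X_mul]
  have hG0 : c * G.coeff 0 = LaurentPolynomial.T (n + 1) * toLaurent u := by
    rw [hc0, W.qu, map_mul, toLaurent_X, LaurentPolynomial.T_add]
    ring
  have hGT : c * ((e1' : RO ℤ) * G.coeff T) =
      LaurentPolynomial.T (n + 1) * toLaurent ((1 + C (sg : ℤ) * X) * f) := by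
    have h2 : c * ((e1' : RO ℤ) * G.coeff T) =
        LaurentPolynomial.C (sg : ℤ) * LaurentPolynomial.T 1 * ((e1 : RO ℤ) * (c * G.coeff T)) := by
      rw [he1']
      ring
    rw [h2, hcT, map_mul, map_add, toLaurent_X, toLaurent_C, map_mul, map_add, map_mul, map_one,
      toLaurent_C, toLaurent_X, LaurentPolynomial.T_add]
    linear_combination (LaurentPolynomial.T 1 * LaurentPolynomial.T n * toLaurent f : RO ℤ) * hsgC
  obtain ⟨q', hq', hpq⟩ := div_nf hp0 hcp hG0
  obtain ⟨b', hb', hpb⟩ := div_nf hp0 hcp hGT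
  have hpw : p * (q' + b') = u + f + C (sg : ℤ) * X * f := by
    rw [mul_add, hpq, hpb]
    ring
  have hV : G.coeff 0 + (e1' : RO ℤ) * G.coeff T =
      LaurentPolynomial.T (n + 1 - k) * toLaurent (q' + b') := by
    rw [hq', hb', map_add]
    ring
  have hw0 : (u + f + C (sg : ℤ) * X * f).coeff 0 = -((sg : ℤ) * q.coeff 0 * (N - 1)) := by
    rw [coeff_add, coeff_add, hu0c, W.pol.f0, mul_assoc (C (sg : ℤ)), coeff_C_mul,
      coeff_X_mul_zero]
    ring
  have hNr : (10000 : ℝ) ≤ N := by exact_mod_cast hN1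
  have hv0 : |((q' + b').coeff 0 : ℝ)| = N - 1 := by
    rw [abs_of_mul hpu hpw, hw0]
    push_cast
    rw [abs_neg, abs_mul, abs_mul, hsabs, hqabs, one_mul, one_mul, abs_of_nonneg (by linarith)]
  have hvz : ∀ z : ℂ, ‖z‖ < 1 → ((q' + b').map (Int.castRingHom ℂ)).eval z ≠ 0 :=
    fun z hz => nz_of_mul hpw (W.vz z hz)
  have hqz : ∀ z : ℂ, ‖z‖ < 1 → (q'.map (Int.castRingHom ℂ)).eval z ≠ 0 :=
    fun z hz => nz_of_mul hpq (W.uz z hz)
  have hVV : ClassV ((N : ℝ) - 1) (G.coeff 0 + (e1' : RO ℤ) * G.coeff T) :=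
    classV_of (by linarith) hV hv0 hvz
  have hb0 : |(b'.coeff 0 : ℝ)| = 1 := by
    rw [abs_of_mul hpu hpb, mul_coeff_zero, coeff_add, coeff_one_zero, coeff_C_mul, coeff_X_zero,
      mul_zero, add_zero, one_mul, hfabs]
  rcases hScv P (Ker (co phi i0)) (phO phi S0 i0) G T i1 h1 e1' N hG (by omega) hray him
    (by linarith) hGV hVV (by
      have h2 : rk (supp (cl (co (phO phi S0 i0) i1) T h1 e1' G)) = 2 * (N - 1) := by omega
      rw [h2]
      push_cast [Nat.cast_sub (show 1 ≤ N by omega)]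
      exact le_rfl) (by omega) W.hyp.v3 with
    ⟨c', n', G', hfd, hMc', hsn⟩ | ⟨c', G', hc', hcl', hG', hGV'⟩
  · -- a small factor: the terminal case
    obtain ⟨hbz, hev⟩ := hE3v ℤ P (Ker (co phi i0)) (phO phi S0 i0) G T i1 e1' h1 c' n' G' hfd hMc'
      hsn (n + 1 - k) q' b' hq' hb' hqz hvz (by
        change ‖((b'.coeff 0 : ℤ) : ℂ)‖ = 1
        rw [Complex.norm_intCast, hb0]) (by
        change 2 < ‖(((q' + b').coeff 0 : ℤ) : ℂ)‖
        rw [Complex.norm_intCast, hv0]
        linarith)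
    obtain ⟨a, ha⟩ : ∃ a : ℂ, a = ((sg : ℤ) : ℂ) / (θ : ℂ) := ⟨_, rfl⟩
    have hθC : (θ : ℂ) ≠ 0 := by exact_mod_cast hθ0.ne'
    have haθ : a * (θ : ℂ) = ((sg : ℤ) : ℂ) := by rw [ha, div_mul_cancel₀ _ hθC]
    have hsgCC : ((sg : ℤ) : ℂ) * ((sg : ℤ) : ℂ) = 1 := by exact_mod_cast hsg2
    have hna : ‖a‖ = 1 / θ := by
      rw [ha, norm_div, Complex.norm_intCast, hsabs, Complex.norm_real, Real.norm_of_nonneg hθ0.le]
    have ha1 : ‖a‖ < 1 := by
      rw [hna]
      linarith
    have h2 := hev a (by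
      rw [hna]
      linarith)
    have hroot := W.pol.root
    rw [← ha] at hroot
    have ebz : (b'.map (Int.castRingHom ℂ)).eval a ≠ 0 := hbz a ha1
    have epz := hpz a ha1
    have eua := congrArg (fun r : ℤ[X] => (r.map (Int.castRingHom ℂ)).eval a) W.qu
    have epq := congrArg (fun r : ℤ[X] => (r.map (Int.castRingHom ℂ)).eval a) hpq
    have epb := congrArg (fun r : ℤ[X] => (r.map (Int.castRingHom ℂ)).eval a) hpb
    simp only [Polynomial.map_sub, Polynomial.map_add, Polynomial.map_mul, Polynomial.map_one,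
      map_C, map_X, eval_add, eval_sub, eval_mul, eval_C, eval_X, eval_one, hroot,
      zero_sub] at eua epq epb
    simp only [eq_intCast] at eua epb
    have hθ1C : (θ : ℂ) + 1 ≠ 0 := by
      have : θ + 1 ≠ 0 := by linarith
      exact_mod_cast this
    have h3 : (q'.map (Int.castRingHom ℂ)).eval a / (b'.map (Int.castRingHom ℂ)).eval a =
        ((-(θ ^ 2 / (θ + 1)) : ℝ) : ℂ) := by
      rw [div_eq_iff ebz]
      apply mul_left_cancel₀ epz
      rw [epq]
      push_cast
      have h4 : (u.map (Int.castRingHom ℂ)).eval a = -(θ : ℂ) * (f.map (Int.castRingHom ℂ)).eval a := by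
        linear_combination (-((sg : ℤ) : ℂ) * (θ : ℂ)) * eua - (((sg : ℤ) : ℂ) *
          (u.map (Int.castRingHom ℂ)).eval a) * haθ -
          ((u.map (Int.castRingHom ℂ)).eval a + (θ : ℂ) * (f.map (Int.castRingHom ℂ)).eval a) * hsgCC
      have h4' : (p.map (Int.castRingHom ℂ)).eval a * (b'.map (Int.castRingHom ℂ)).eval a *
          (θ : ℂ) = ((θ : ℂ) + 1) * (f.map (Int.castRingHom ℂ)).eval a := by
        linear_combination (θ : ℂ) * epb +
          (((sg : ℤ) : ℂ) * (f.map (Int.castRingHom ℂ)).eval a) * haθ +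
          ((f.map (Int.castRingHom ℂ)).eval a) * hsgCC
      rw [h4]
      have h5 : (θ : ℂ) ^ 2 / ((θ : ℂ) + 1) * ((θ : ℂ) + 1) = (θ : ℂ) ^ 2 := div_mul_cancel₀ _ hθ1C
      apply mul_right_cancel₀ hθC
      linear_combination ((θ : ℂ) ^ 2 / ((θ : ℂ) + 1)) * h4' +
        ((f.map (Int.castRingHom ℂ)).eval a) * h5
    have h5 : ((q'.map (Int.castRingHom ℂ)).eval a / (b'.map (Int.castRingHom ℂ)).eval a).re =
        -(θ ^ 2 / (θ + 1)) := by
      rw [h3, Complex.ofReal_re]
    have h6 : (Module.finrank ℤ (Ker (co phi i0)) : ℝ) ≤ 2 * (θ ^ 2 / (θ + 1)) := by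
      refine h2.trans (le_of_eq ?_)
      change -(2 * ((q'.map (Int.castRingHom ℂ)).eval a / (b'.map (Int.castRingHom ℂ)).eval a).re) = _
      rw [h5]
      ring
    have h7 : (Module.finrank ℤ L : ℝ) = Module.finrank ℤ (Ker (co phi i0)) + 1 := by
      rw [← hfk]
      push_cast
      ring
    have h8 : θ ^ 2 / (θ + 1) = θ - 1 + 1 / (θ + 1) := by
      field_simp
      ring
    have h9 : 1 / (θ + 1) ≤ 1 / 8 := one_div_le_one_div_of_le (by norm_num) (by linarith)
    rw [h8] at h6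
    linarith
  · -- one big factor
    have hN' : ClassV (((N - 1 : ℕ) : ℝ)) (G'.coeff 0) := by
      rw [Nat.cast_sub (show 1 ≤ N by omega), Nat.cast_one]
      exact hGV'
    rcases hFcl ℤ P (Ker (co (phO phi S0 i0) i1)) (phO (phO phi S0 i0) T i1) G' _ hG' hGV'
      (by omega) with hz | ⟨N', b, D', hN', hD', hV', hr⟩
    · obtain ⟨x, v, hxv⟩ := hx
      rw [hcl', ← mul_assoc, ← Pool.Agent.B5.H71.cst_mul, Pool.Agent.B5.H71.cst_mul_coeff] at hxv
      obtain ⟨k', p', hcp', hp1', -, hpz'⟩ := Pool.Agent.B5.H78.classV_nf hc'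
      have hcc : ClassV 1 (c * c') := by
        refine classV_of (a := k + k') (x' := p * p') le_rfl ?_ ?_ ?_
        · rw [hcp, hcp', LaurentPolynomial.T_add, map_mul]
          ring
        · rw [mul_coeff_zero, Int.cast_mul, abs_mul, hp1, hp1', mul_one]
        · intro z hz
          rw [Polynomial.map_mul, eval_mul]
          exact mul_ne_zero (hpz z hz) (hpz' z hz)
      obtain ⟨hdis, hA1, hA2, -⟩ := hMco ℤ P L phi D S0 S1 e0 e1 dd.inj dd.bin W.mt
      have hm := (hMdc ℤ P L phi D S0 S1 dd.inj dd.bin (dd.bin S0 W.mt.r0.1) (dd.bin S1 W.mt.r1.1)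
        hdis ⟨i0, h0, T, eT, i1, co (phO phi S0 i0) i1, hk, h1⟩ eA e1').2
      rw [hdc, hcl', ← mul_assoc, ← Pool.Agent.B5.H71.cst_mul,
        Pool.Agent.B5.H71.cst_mul_coeff] at hm
      have hm0 : c * c' * G'.coeff 0 =
          LaurentPolynomial.T n * toLaurent (q + (X + C (sg : ℤ) * X ^ 2 - C (sg : ℤ)) * f) := by
        refine hm.trans ?_
        have hDS := W.DS
        rw [hX] at hDS
        have hP : toLaurent (q + (X + C (sg : ℤ) * X ^ 2 - C (sg : ℤ)) * f) =
            (toLaurent q + (LaurentPolynomial.T 1 + LaurentPolynomial.C (sg : ℤ) *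
              LaurentPolynomial.T 1 ^ 2 - LaurentPolynomial.C (sg : ℤ)) * toLaurent f : RO ℤ) := by
          simp only [map_add, map_sub, map_mul, map_pow, toLaurent_X, toLaurent_C]
        rw [W.eAd, he1', W.D0, hP]
        linear_combination (LaurentPolynomial.C (sg : ℤ) * LaurentPolynomial.T 1 : RO ℤ) * hA1 -
          (LaurentPolynomial.C (sg : ℤ) * LaurentPolynomial.C (sg : ℤ) * LaurentPolynomial.T (-1) *
            LaurentPolynomial.T 1 : RO ℤ) * hA2 +
          (-(LaurentPolynomial.C (sg : ℤ) * LaurentPolynomial.T (-1)) +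
            LaurentPolynomial.C (sg : ℤ) * LaurentPolynomial.T 1 +
            LaurentPolynomial.C (sg : ℤ) * LaurentPolynomial.C (sg : ℤ) *
              LaurentPolynomial.T (-1) * LaurentPolynomial.T 1 : RO ℤ) * hDS +
          (-(LaurentPolynomial.C (sg : ℤ) * LaurentPolynomial.T n * toLaurent f) +
            LaurentPolynomial.T n * toLaurent f * LaurentPolynomial.T 1 *
              (LaurentPolynomial.C (sg : ℤ) * LaurentPolynomial.C (sg : ℤ)) : RO ℤ) * hTT +
          (LaurentPolynomial.T n * toLaurent f * LaurentPolynomial.T 1 : RO ℤ) * hsgC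
      have hfin := hZfb _ G' x (c * c') n q f (sg : ℤ) θ (N - 1)
        ((LaurentPolynomial.isUnit_T (R := ℤ) (-(n + 1))).unit * e0 * v⁻¹) W.pol hz hcc hN'
        (by
          rw [W.c1, Nat.cast_sub (show 1 ≤ N by omega)]
          ring)
        hm0 (by
          rw [hxv, Units.val_mul, Units.val_mul, IsUnit.unit_spec]
          have h2 : ((v⁻¹ : (RO ℤ)ˣ) : RO ℤ) * (v : RO ℤ) = 1 := Units.inv_mul v
          have hDS := W.DS
          rw [hX] at hDS
          have h3 : (LaurentPolynomial.T (-(n + 1)) * (LaurentPolynomial.T n *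
              LaurentPolynomial.T 1) : RO ℤ) = 1 := by
            rw [← LaurentPolynomial.T_add, ← LaurentPolynomial.T_add]
            simp
          linear_combination (LaurentPolynomial.T (-(n + 1)) * (e0 : RO ℤ) * D.coeff S0) * h2 +
            (LaurentPolynomial.T (-(n + 1))) * hDS + (toLaurent f : RO ℤ) * h3)
      have h4 : ((N - 1 : ℕ) : ℝ) = (N : ℝ) - 1 := by
        rw [Nat.cast_sub (show 1 ≤ N by omega), Nat.cast_one]
      rw [h4, sub_add_cancel] at hfin
      have h5 : (N : ℝ) = θ - 1 / θ := by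
        field_simp
        linarith
      have h6 : (Module.finrank ℤ L : ℝ) = 2 * N := by
        rw [hK]
        push_cast
        ring
      rw [h6, h5] at hcon
      exact lt_irrefl _ hcon
    · have h3 : (Module.finrank ℤ (Ker (co (phO phi S0 i0) i1) × ℤ) : ℝ) = 2 * N - 1 := by
        have h4 : Module.finrank ℤ (Ker (co (phO phi S0 i0) i1) × ℤ) + 1 = 2 * N := by omega
        have h5 : ((Module.finrank ℤ (Ker (co (phO phi S0 i0) i1) × ℤ) + 1 : ℕ) : ℝ) =
            ((2 * N : ℕ) : ℝ) := by rw [h4]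
        push_cast at h5
        linarith
      by_cases h4 : (4 : ℝ) ≤ N'
      · have := W.hyp.v2 N' h4 (Option P) (Ker (co (phO phi S0 i0) i1) × ℤ) _ D' hD' hV'
        linarith
      · push Not at h4
        have := W.hyp.v3 N' (Option P) (Ker (co (phO phi S0 i0) i1) × ℤ) _ D' hD' hV'
        have h6 : max 1 N' ≤ 4 := max_le (by norm_num) h4.le
        linarith

end Pool.Agent.B5.H66
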